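import Mathlib
import Pool.Agent.H249R2.Final
import Pool.Agent.H249R2.Sausage

set_option autoImplicit false

open MeasureTheory Metric Set
open scoped ENNReal Pointwise

namespace Pool.Agent.Results.MP_fe456b_co.KFoldSausage

/-- The `k`-fold sausage theorem in high dimensions: for every `k ≥ 1` there is `d₀` such that for
all `d ≥ d₀` and all `n ≥ k`, every convex body `D` of `ℝ^d` containing a `k`-fold packing of `n`
unit balls has volume at least the volume of `S + B^d`, where `S` is a segment of length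
`2 (⌊n/k⌋ - 1)`. -/
theorem result (k : ℕ) (hk : 1 ≤ k) :
    ∃ d₀ : ℕ, ∀ d : ℕ, d₀ ≤ d → ∀ n : ℕ, k ≤ n →
      ∀ D : Set (EuclideanSpace ℝ (Fin d)),
        IsCompact D → Convex ℝ D → (interior D).Nonempty →
      ∀ x : Fin n → EuclideanSpace ℝ (Fin d),
        (∀ i, closedBall (x i) 1 ⊆ D) →
        (¬ ∃ (w : EuclideanSpace ℝ (Fin d)) (J : Finset (Fin n)),
          J.card = k + 1 ∧ ∀ j ∈ J, w ∈ interior (closedBall (x j) 1)) →
      ∀ a b : EuclideanSpace ℝ (Fin d), dist a b = 2 * (((n / k : ℕ) : ℝ) - 1) →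
        volume (segment ℝ a b + closedBall (0 : EuclideanSpace ℝ (Fin d)) 1) ≤ volume D := by
  obtain ⟨N₁, hN₁⟩ := exists_pow_lt_of_lt_one (show (0 : ℝ) < 1 / 4 by norm_num)
    (show (127 / 128 : ℝ) < 1 by norm_num)
  obtain ⟨N₂, hN₂⟩ := H249R2.exists_ratio 4
  obtain ⟨N₃, hN₃⟩ := H249R2.exists_ratio
    (4 * (2 + 2 * (k : ℝ) + (k : ℝ) ^ (k + 1)) / H249R2.dl k ^ 2)
  obtain ⟨N₄, hN₄⟩ := H249R2.exists_ratio 1
  refine ⟨N₁ + N₂ + N₃ + N₄ + 2, ?_⟩
  intro d hd n hkn D hDc hDconv _ x hball hpack a b hab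
  obtain ⟨N, rfl⟩ : ∃ N, d = N + 2 := ⟨d - 2, by omega⟩
  have hk' : ∀ (w : EuclideanSpace ℝ (Fin (N + 2))) (J : Finset (Fin n)),
      (∀ j ∈ J, dist (x j) w < 1) → J.card ≤ k := by
    intro w J hJ
    by_contra hcon
    push Not at hcon
    obtain ⟨J', hJ'J, hJ'c⟩ := Finset.exists_subset_card_eq (show k + 1 ≤ J.card by omega)
    refine hpack ⟨w, J', hJ'c, fun j hj => ?_⟩
    rw [interior_closedBall _ one_ne_zero, mem_ball, dist_comm]
    exact hJ j (hJ'J hj)
  have hN : (127 / 128 : ℝ) ^ N ≤ 1 / 4 :=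
    (pow_le_pow_of_le_one (by norm_num) (by norm_num) (by omega)).trans hN₁.le
  have hDm : MeasurableSet D := hDc.isClosed.measurableSet
  rcases Nat.lt_or_ge n (k + 1) with h | h
  · have hnk : n = k := by omega
    subst hnk
    have h1 : n / n = 1 := Nat.div_self hk
    rw [h1] at hab
    have hab0 : dist a b = 0 := by rw [hab]; norm_num
    refine (H249R2.volume_sausage_le a b).trans ?_
    rw [hab0, ENNReal.ofReal_zero, zero_mul, add_zero, ← H249R2.kap_eq_center (N + 2) (x ⟨0, hk⟩)]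
    exact measure_mono (hball _)
  · refine (H249R2.volume_sausage_le a b).trans ?_
    have hmain := H249R2.main_volume hk h hN (hN₂ N (by omega)) (hN₃ N (by omega))
      (hN₄ (N + 1) (by omega)) hDconv hDm hball hk'
    refine le_trans (le_of_eq ?_) hmain
    rw [hab, H249R2.kap_eq (N + 1)]
    congr 1
    rw [← ENNReal.ofReal_mul]
    rw [← hab]
    exact dist_nonneg

end Pool.Agent.Results.MP_fe456b_co.KFoldSausage
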